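import Pool.Agent.Helper78_E.Stmts2

/-!
# MP_7d2497_an: module LAPU, uniqueness of the Laplace transform
-/

namespace Pool.Agent.H78E.H85

open MeasureTheory Filter Topology Complex

noncomputable section

/-- The pairing with polynomials in `exp(-t)` without constant term vanishes. -/
theorem pair_exp (f : Y) (hf : ∀ z : ℂ, z.im < 0 → chi z f = 0) (n : ℕ) :
    ∫ t in Set.Ioi (0 : ℝ), ((f : X) : ℝ → ℂ) t * ((Real.exp (-t) ^ (n + 1) : ℝ) : ℂ) = 0 := by
  have hz : (-(((n : ℝ) + 1 : ℝ) : ℂ) * Complex.I).im < 0 := by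
    have h0 : (0 : ℝ) ≤ (n : ℝ) := Nat.cast_nonneg n
    simp only [Complex.mul_im, Complex.neg_re, Complex.ofReal_re, Complex.I_im, mul_one,
      Complex.neg_im, Complex.ofReal_im, Complex.I_re, mul_zero, add_zero]
    linarith
  have h1 := hf _ hz
  rw [chi_rep hz.le f] at h1
  rw [← h1, ← integral_indicator measurableSet_Ioi]
  apply integral_congr_ae
  have h0 : ∀ᵐ t : ℝ, t ≠ 0 := by
    have : volume ({0} : Set ℝ) = 0 := by simp
    exact compl_mem_ae_iff.mpr this
  filter_upwards [h0, mem_Y.mp f.2] with t ht hfz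
  by_cases h : 0 < t
  · rw [Set.indicator_of_mem (show t ∈ Set.Ioi (0 : ℝ) from h)]
    congr 1
    unfold expPos
    rw [if_pos h.le, ← Real.exp_nat_mul, Complex.ofReal_exp]
    congr 1
    push_cast
    have : (Complex.I * (t : ℂ) * (-((n : ℂ) + 1) * Complex.I))
        = -(Complex.I * Complex.I) * ((n : ℂ) + 1) * t := by ring
    rw [this, Complex.I_mul_I]
    ring
  · rw [Set.indicator_of_notMem (show t ∉ Set.Ioi (0 : ℝ) from h)]
    rw [hfz (lt_of_le_of_ne (not_lt.mp h) ht), zero_mul]

theorem cont_h {g : ℝ → ℝ} (hg : Continuous g) {T : ℝ} (hT : ∀ t, T < t → g t = 0) :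
    ContinuousOn (fun u : ℝ => if 0 < u then g (-Real.log u) else 0) (Set.Icc 0 1) := by
  intro u hu
  by_cases h0 : 0 < u
  · have h1 : ContinuousAt (fun u : ℝ => g (-Real.log u)) u :=
      hg.continuousAt.comp ((Real.continuousAt_log h0.ne').neg)
    have h2 : (fun u : ℝ => if 0 < u then g (-Real.log u) else 0) =ᶠ[𝓝 u]
        fun u : ℝ => g (-Real.log u) := by
      filter_upwards [lt_mem_nhds h0] with w hw
      rw [if_pos hw]
    exact (h1.congr h2.symm).continuousWithinAt
  · have hu0 : u = 0 := le_antisymm (not_lt.mp h0) hu.1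
    subst hu0
    have h2 : (fun u : ℝ => if 0 < u then g (-Real.log u) else 0) =ᶠ[𝓝 (0 : ℝ)]
        fun _ : ℝ => (0 : ℝ) := by
      filter_upwards [gt_mem_nhds (Real.exp_pos (-T))] with w hw
      by_cases hw0 : 0 < w
      · rw [if_pos hw0]
        apply hT
        have := (Real.log_lt_iff_lt_exp hw0).mpr hw
        linarith
      · rw [if_neg hw0]
    exact ((continuousAt_const (y := (0 : ℝ))).congr h2.symm).continuousWithinAt

theorem lapu : LapuStmt := by
  intro f hf
  have hfi : Integrable ((f : X) : ℝ → ℂ) volume := L1.integrable_coeFn (f : X)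
  have hfz := mem_Y.mp f.2
  have h0 : ∀ᵐ t : ℝ, t ≠ 0 := by
    have : volume ({0} : Set ℝ) = 0 := by simp
    exact compl_mem_ae_iff.mpr this
  have hae : ∀ᵐ t : ℝ, ((f : X) : ℝ → ℂ) t = 0 := by
    apply ae_eq_zero_of_integral_contDiff_smul_eq_zero hfi.locallyIntegrable
    intro g hgs hgc
    have hgcont : Continuous g := hgs.continuous
    obtain ⟨T, hT⟩ : ∃ T : ℝ, ∀ t, T < t → g t = 0 := by
      obtain ⟨T, hT⟩ := hgc.isCompact.isBounded.subset_closedBall 0
      refine ⟨T, fun t ht => ?_⟩
      by_contra hne
      have h1 : t ∈ Metric.closedBall (0 : ℝ) T := hT (subset_tsupport _ hne)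
      rw [mem_closedBall_zero_iff, Real.norm_eq_abs] at h1
      exact absurd ht (not_lt.mpr ((le_abs_self t).trans h1))
    -- the integral is small
    have hsmall : ∀ η : ℝ, 0 < η →
        ‖∫ t : ℝ, g t • ((f : X) : ℝ → ℂ) t‖ ≤ 2 * η * ∫ t : ℝ, ‖((f : X) : ℝ → ℂ) t‖ := by
      intro η hη
      obtain ⟨p, hp⟩ := exists_polynomial_near_of_continuousOn 0 1 _ (cont_h hgcont hT) η hη
      -- the polynomial pairing
      have hzero : ∀ q : Polynomial ℝ, ∫ t in Set.Ioi (0 : ℝ), ((f : X) : ℝ → ℂ) t *
          (((q.eval (Real.exp (-t)) - q.eval 0 : ℝ)) : ℂ) = 0 := by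
        intro q
        induction q using Polynomial.induction_on' with
        | add p q hp hq =>
          have hbd : ∀ r : Polynomial ℝ, IntegrableOn (fun t : ℝ => ((f : X) : ℝ → ℂ) t *
              (((r.eval (Real.exp (-t)) - r.eval 0 : ℝ)) : ℂ)) (Set.Ioi 0) volume := by
            intro r
            obtain ⟨C, hC⟩ := (isCompact_Icc (a := (0 : ℝ)) (b := 1)).exists_bound_of_continuousOn
              (f := fun u : ℝ => (((r.eval u - r.eval 0 : ℝ)) : ℂ)) (by fun_prop)
            refine Integrable.mul_bdd (c := C) hfi.restrict ?_ ?_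
            · apply Continuous.aestronglyMeasurable
              fun_prop
            · filter_upwards [ae_restrict_mem measurableSet_Ioi] with t ht
              apply hC
              exact ⟨(Real.exp_pos _).le, Real.exp_le_one_iff.mpr (by
                have := Set.mem_Ioi.mp ht; linarith)⟩
          have := integral_add (hbd p) (hbd q)
          rw [hp, hq, add_zero] at this
          rw [← this]
          congr 1
          ext1 t
          simp only [Polynomial.eval_add]
          push_cast
          ring
        | monomial n a =>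
          rcases n with _ | n
          · simp
          · have h1 := pair_exp f hf n
            have h2 : (fun t : ℝ => ((f : X) : ℝ → ℂ) t *
                ((((Polynomial.monomial (n + 1) a).eval (Real.exp (-t)) -
                  (Polynomial.monomial (n + 1) a).eval 0 : ℝ)) : ℂ))
                = fun t : ℝ => (a : ℂ) * (((f : X) : ℝ → ℂ) t *
                  ((Real.exp (-t) ^ (n + 1) : ℝ) : ℂ)) := by
              ext1 t
              simp only [Polynomial.eval_monomial]
              rw [zero_pow (Nat.succ_ne_zero n)]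
              push_cast
              ring
            rw [h2, integral_const_mul, h1, mul_zero]
      have h1 : ∫ t : ℝ, g t • ((f : X) : ℝ → ℂ) t = ∫ t in Set.Ioi (0 : ℝ),
          ((f : X) : ℝ → ℂ) t * ((g t - (p.eval (Real.exp (-t)) - p.eval 0) : ℝ) : ℂ) := by
        have hgi : ∫ t : ℝ, g t • ((f : X) : ℝ → ℂ) t = ∫ t in Set.Ioi (0 : ℝ),
            g t • ((f : X) : ℝ → ℂ) t := by
          rw [← integral_indicator measurableSet_Ioi]
          apply integral_congr_ae
          filter_upwards [h0, hfz] with t ht hz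
          by_cases h : 0 < t
          · rw [Set.indicator_of_mem (show t ∈ Set.Ioi (0 : ℝ) from h)]
          · rw [Set.indicator_of_notMem (show t ∉ Set.Ioi (0 : ℝ) from h)]
            rw [hz (lt_of_le_of_ne (not_lt.mp h) ht), smul_zero]
        have hI1 : IntegrableOn (fun t : ℝ => ((f : X) : ℝ → ℂ) t * ((g t : ℝ) : ℂ))
            (Set.Ioi 0) volume := by
          obtain ⟨C, hC⟩ := hgc.exists_bound_of_continuous hgcont
          refine Integrable.mul_bdd (c := C) hfi.restrict ?_ ?_
          · apply Continuous.aestronglyMeasurable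
            fun_prop
          · refine Eventually.of_forall fun t => ?_
            rw [Complex.norm_real]
            exact hC t
        have hI2 : IntegrableOn (fun t : ℝ => ((f : X) : ℝ → ℂ) t *
              (((p.eval (Real.exp (-t)) - p.eval 0 : ℝ)) : ℂ)) (Set.Ioi 0) volume := by
          obtain ⟨C, hC⟩ := (isCompact_Icc (a := (0 : ℝ)) (b := 1)).exists_bound_of_continuousOn
            (f := fun u : ℝ => (((p.eval u - p.eval 0 : ℝ)) : ℂ)) (by fun_prop)
          refine Integrable.mul_bdd (c := C) hfi.restrict ?_ ?_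
          · apply Continuous.aestronglyMeasurable
            fun_prop
          · filter_upwards [ae_restrict_mem measurableSet_Ioi] with t ht
            apply hC
            exact ⟨(Real.exp_pos _).le, Real.exp_le_one_iff.mpr (by
              have := Set.mem_Ioi.mp ht; linarith)⟩
        have := integral_sub hI1 hI2
        rw [hzero p, sub_zero] at this
        rw [hgi]
        have h3 : (fun t : ℝ => ((f : X) : ℝ → ℂ) t *
            ((g t - (p.eval (Real.exp (-t)) - p.eval 0) : ℝ) : ℂ)) =
            fun t : ℝ => ((f : X) : ℝ → ℂ) t * ((g t : ℝ) : ℂ) - ((f : X) : ℝ → ℂ) t *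
              (((p.eval (Real.exp (-t)) - p.eval 0 : ℝ)) : ℂ) := by
          ext1 t
          push_cast
          ring
        rw [h3, this]
        congr 1
        ext1 t
        rw [Complex.real_smul, mul_comm]
      rw [h1]
      have h4 : ∫ t : ℝ, 2 * η * ‖((f : X) : ℝ → ℂ) t‖ = 2 * η * ∫ t : ℝ, ‖((f : X) : ℝ → ℂ) t‖ :=
        integral_const_mul _ _
      rw [← h4]
      calc ‖∫ t in Set.Ioi (0 : ℝ),
          ((f : X) : ℝ → ℂ) t * ((g t - (p.eval (Real.exp (-t)) - p.eval 0) : ℝ) : ℂ)‖
          ≤ ∫ t in Set.Ioi (0 : ℝ), 2 * η * ‖((f : X) : ℝ → ℂ) t‖ := by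
            refine norm_integral_le_of_norm_le (hfi.norm.const_mul _).restrict ?_
            filter_upwards [ae_restrict_mem measurableSet_Ioi] with t ht
            have ht0 : 0 < t := ht
            rw [norm_mul, mul_comm]
            refine mul_le_mul_of_nonneg_right ?_ (norm_nonneg _)
            rw [Complex.norm_real, Real.norm_eq_abs]
            have e1 := hp (Real.exp (-t)) ⟨(Real.exp_pos _).le, Real.exp_le_one_iff.mpr (by linarith)⟩
            have e2 := hp 0 ⟨le_rfl, zero_le_one⟩
            rw [if_pos (Real.exp_pos _), Real.log_exp, neg_neg] at e1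
            rw [if_neg (lt_irrefl _), sub_zero] at e2
            rw [abs_lt] at e1 e2
            rw [abs_le]
            constructor <;> linarith [e1.1, e1.2, e2.1, e2.2]
        _ ≤ ∫ t : ℝ, 2 * η * ‖((f : X) : ℝ → ℂ) t‖ := by
            apply setIntegral_le_integral (hfi.norm.const_mul _)
            refine Eventually.of_forall fun t => ?_
            have := norm_nonneg (((f : X) : ℝ → ℂ) t)
            positivity
    have hI := integral_nonneg (μ := (volume : Measure ℝ))
      (f := fun t => ‖((f : X) : ℝ → ℂ) t‖) (fun _ => norm_nonneg _)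
    rw [← norm_le_zero_iff]
    refine le_of_forall_pos_lt_add fun ε hε => ?_
    set J := ∫ t : ℝ, ‖((f : X) : ℝ → ℂ) t‖ with hJ
    have hJ0 : 0 ≤ J := hI
    have h5 := hsmall (ε / (4 * (J + 1))) (by positivity)
    have h6 : 2 * (ε / (4 * (J + 1))) * J < 0 + ε := by
      have : 2 * (ε / (4 * (J + 1))) * J = ε * (J / (2 * (J + 1))) := by
        field_simp
        ring
      rw [this, zero_add]
      have h7 : J / (2 * (J + 1)) < 1 := by
        rw [div_lt_one (by positivity)]
        linarith
      calc ε * (J / (2 * (J + 1))) < ε * 1 := mul_lt_mul_of_pos_left h7 hε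
        _ = ε := mul_one _
    exact lt_of_le_of_lt h5 h6
  apply Subtype.ext
  apply Lp.ext
  filter_upwards [hae, Lp.coeFn_zero ℂ 1 (volume : Measure ℝ)] with t h1 h2
  rw [h1]
  exact h2.symm

end

end Pool.Agent.H78E.H85
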