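import Pool.Agent.Helper78_E.Stmts2

/-!
# MP_7d2497_an: module ALG, approximate annihilation by resolvents gives invertibility
-/

namespace Pool.Agent.H78E.H85

open MeasureTheory Filter Topology Complex

theorem alg : AlgStmt := by
  intro A _ _ _ R z N c hz hR hlt
  -- resolvent identities at zero
  have h1 : ∀ n : ℕ, R 0 - R n = (n : ℂ) • (R 0 * R n) := by
    intro n
    have := hR 0 n
    simpa using this
  have h2 : ∀ n : ℕ, R 0 - R n = (n : ℂ) • (R n * R 0) := by
    intro n
    have := hR n 0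
    have h3 : R 0 - R n = -(R n - R 0) := by abel
    rw [h3, this]
    simp [neg_smul]
  have hcomm : ∀ n : ℕ, Commute (R 0) (R n) := by
    intro n
    by_cases hn : n = 0
    · subst hn
      exact Commute.refl _
    · have h3 : (n : ℂ) • (R 0 * R n) = (n : ℂ) • (R n * R 0) := (h1 n).symm.trans (h2 n)
      have hn' : (n : ℂ) ≠ 0 := Nat.cast_ne_zero.mpr hn
      exact smul_right_injective A hn' h3
  have hz0 : (1 + z : ℂ) ≠ 0 := by simpa using hz 0
  set s : ℂ := ∑ n ∈ Finset.range N, c n / ((n : ℂ) + 1 + z) with hs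
  set P : A := ∑ n ∈ Finset.range N, c n • R n with hP
  set Z : A := ∑ n ∈ Finset.range N,
    (c n * (1 - (n : ℂ) / ((n : ℂ) + 1 + z))) • (1 - (n : ℂ) • R n) with hZ
  have hs0 : s ≠ 0 := by
    intro h0
    rw [h0, norm_zero] at hlt
    exact absurd hlt (not_lt.mpr (norm_nonneg _))
  have key : P - s • (1 : A) = (R 0 - (1 + z)⁻¹ • (1 : A)) * Z := by
    rw [hP, hs, hZ, Finset.sum_smul, ← Finset.sum_sub_distrib, Finset.mul_sum]
    apply Finset.sum_congr rfl
    intro n _
    have hn := hz n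
    have e1 : R 0 * (1 - (n : ℂ) • R n) = R n := by
      rw [mul_sub, mul_one, mul_smul_comm, ← h1 n]
      abel
    rw [mul_smul_comm, sub_mul, e1, smul_mul_assoc, one_mul]
    have e2 : (1 - (n : ℂ) / ((n : ℂ) + 1 + z)) = (1 + z) / ((n : ℂ) + 1 + z) := by
      field_simp
      ring
    rw [e2]
    simp only [smul_sub, smul_smul]
    have e3 : c n * ((1 + z) / ((n : ℂ) + 1 + z)) * (1 + z)⁻¹ = c n / ((n : ℂ) + 1 + z) := by
      field_simp
    have e4 : c n * ((1 + z) / ((n : ℂ) + 1 + z)) * ((1 + z)⁻¹ * (n : ℂ))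
        = c n * ((n : ℂ) / ((n : ℂ) + 1 + z)) := by
      field_simp
    rw [e3, e4]
    have e5 : c n • R n = (c n * ((1 + z) / ((n : ℂ) + 1 + z))) • R n
        + (c n * ((n : ℂ) / ((n : ℂ) + 1 + z))) • R n := by
      rw [← add_smul]
      congr 1
      field_simp
      ring
    rw [e5]
    abel
  have hunit : IsUnit (P - s • (1 : A)) := by
    have hn1 : ‖s⁻¹ • P‖ < 1 := by
      rw [norm_smul, norm_inv]
      have hspos : 0 < ‖s‖ := norm_pos_iff.mpr hs0
      rw [inv_mul_lt_iff₀ hspos, mul_one]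
      exact hlt
    have hu := isUnit_one_sub_of_norm_lt_one hn1
    have e6 : P - s • (1 : A) = (-s) • (1 - s⁻¹ • P) := by
      rw [smul_sub, smul_smul]
      have : -s * s⁻¹ = -1 := by field_simp
      rw [this]
      simp only [neg_smul, one_smul]
      abel
    rw [e6]
    have hs' : -s ≠ 0 := neg_ne_zero.mpr hs0
    have : ((-s) • (1 - s⁻¹ • P) : A) = (Units.mk0 (-s) hs') • (1 - s⁻¹ • P) := rfl
    rw [this]
    exact hu.smul _
  have hcZ : Commute (R 0 - (1 + z)⁻¹ • (1 : A)) Z := by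
    rw [hZ]
    apply Commute.sum_right
    intro n _
    apply Commute.smul_right
    apply Commute.sub_left
    · exact (Commute.one_right _).sub_right ((hcomm n).smul_right _)
    · exact (Commute.one_left _).smul_left _
  rw [key] at hunit
  have hu0 : IsUnit (R 0 - (1 + z)⁻¹ • (1 : A)) := ((hcZ.isUnit_mul_iff).mp hunit).1
  have e7 : 1 - (1 + z) • R 0 = (-(1 + z)) • (R 0 - (1 + z)⁻¹ • (1 : A)) := by
    rw [smul_sub, smul_smul]
    have : -(1 + z) * (1 + z)⁻¹ = -1 := by field_simp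
    rw [this]
    simp only [neg_smul, one_smul]
    abel
  rw [e7]
  have hz0' : -(1 + z) ≠ 0 := neg_ne_zero.mpr hz0
  have : ((-(1 + z)) • (R 0 - (1 + z)⁻¹ • (1 : A)) : A)
      = (Units.mk0 (-(1 + z)) hz0') • (R 0 - (1 + z)⁻¹ • (1 : A)) := rfl
  rw [this]
  exact hu0.smul _

end Pool.Agent.H78E.H85
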